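import Mathlib
import Pool.Agent.Helper40.STAB.Final

/-!
Let `G` be a finite group in which all chains of subgroups have length at most `r` (for instance
`|G| < 2^(r+1)`), `n ≥ 5 r + 8`, `π : F_n → G` a homomorphism, `H` a subgroup of `Aut(F_n)` which contains
all automorphisms `φ` with `π ∘ φ = π`, and `m ≤ n - 2`.  Then every homomorphism from `H` to `GL(m, R)`, `R` any
commutative domain of characteristic zero (for instance `ℤ` or `ℂ`), has finite image.
-/

namespace Pool.Agent.Results.MP_8358b8_al.StableCongruence

theorem result (n m r : ℕ) (hn : 5 * r + 8 ≤ n) (hm : m + 2 ≤ n) (G : Type) [Group G] [Finite G]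
    (hG : ∀ s : LTSeries (Subgroup G), s.length ≤ r) (π : FreeGroup (Fin n) →* G)
    (H : Subgroup (MulAut (FreeGroup (Fin n))))
    (hH : ∀ φ : MulAut (FreeGroup (Fin n)), (∀ x, π (φ x) = π x) → φ ∈ H)
    (R : Type) [CommRing R] [IsDomain R] [CharZero R]
    (f : H →* Matrix.GeneralLinearGroup (Fin m) R) : (Set.range f).Finite :=
  STAB.main_domain n m r hn hm G hG π H hH R f

end Pool.Agent.Results.MP_8358b8_al.StableCongruence
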