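import Mathlib
import Pool.Agent.Helper34.TOR.Final

/-!
Let `n ≥ 6`, let `IA` be the Torelli subgroup of `Aut(F_n)` (automorphisms acting trivially on the
abelianization), let `H` be a subgroup of finite index of `Aut(F_n)`, `r = [IA : IA ∩ H]`, and let
`m r ≤ n - 2`.  Then every homomorphism from `H` to `GL(m, R)`, `R` any commutative ring that embeds
in the complex numbers (for instance `ℤ` or `ℂ`), has finite image.  For `H` containing `IA` (`r = 1`)
this is the full range `m ≤ n - 2`.
-/

namespace Pool.Agent.Results.MP_8358b8_al.TorelliBounded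

theorem result (n m : ℕ) (hn : 6 ≤ n) (H IA : Subgroup (MulAut (FreeGroup (Fin n))))
    (hIA : ∀ φ, φ ∈ IA ↔ ∀ x, Abelianization.of (φ x) = Abelianization.of x)
    (hH : H.index ≠ 0) (hm : m * H.relIndex IA + 2 ≤ n)
    (R : Type) [CommRing R] (ι : R →+* ℂ) (hι : Function.Injective ι)
    (f : H →* Matrix.GeneralLinearGroup (Fin m) R) : (Set.range f).Finite := by
  have hIA' : IA = TOR.IA n := by
    ext φ
    rw [hIA, TOR.mem_IA]
  subst hIA'
  let κ : Matrix.GeneralLinearGroup (Fin m) R →* Matrix.GeneralLinearGroup (Fin m) ℂ :=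
    Matrix.GeneralLinearGroup.map ι
  have hκ : Function.Injective κ := by
    intro a b hab
    apply Units.ext
    ext i j
    have h := congrArg (fun A : Matrix.GeneralLinearGroup (Fin m) ℂ =>
      (A : Matrix (Fin m) (Fin m) ℂ) i j) hab
    exact hι (by simpa [κ] using h)
  have h := TOR.main_gen hn H hH hm (κ.comp f)
  have h2 : Set.range (κ.comp f) = κ '' Set.range f := by
    rw [← Set.range_comp]
    rfl
  rw [h2] at h
  exact h.of_finite_image hκ.injOn

end Pool.Agent.Results.MP_8358b8_al.TorelliBounded
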