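import Mathlib
import Pool.Agent.Helper38.AutF.Final3

/-!
Let `m ≤ n - 4`, let `H` be any subgroup of finite index in `Aut(F_n)` and let
`f : H → GL(m, ℤ)` be any homomorphism.  Then a power `τ ^ N` of every transvection `τ`
(more generally, for `m ≤ n - 5`, of every automorphism `x_i ↦ u x_i v`, `x_j ↦ x_j` for `j ≠ i`,
where `u, v` are words in at most `n - 4` of the other letters), and of all conjugates of such
automorphisms in `Aut(F_n)`, lies in `H` and is killed by `f`; the exponent `N` is uniform.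
-/

namespace Pool.Agent.Results.MP_8358b8_al.TransvectionsDie

theorem result (n m : ℕ) (hnm : m + 4 ≤ n) (H : Subgroup (MulAut (FreeGroup (Fin n))))
    (hH : H.index ≠ 0) (f : H →* Matrix.GeneralLinearGroup (Fin m) ℤ) :
    ∃ N : ℕ, 0 < N ∧
      ∀ (Y : Finset (Fin n)) (i : Fin n) (g τ : MulAut (FreeGroup (Fin n))),
        i ∉ Y → Y.card + 4 ≤ n → (Y.card ≤ 1 ∨ m + 5 ≤ n) →
        (∀ j, j ≠ i → τ (FreeGroup.of j) = FreeGroup.of j) →
        (∃ u ∈ Subgroup.closure (FreeGroup.of '' (Y : Set (Fin n))),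
          ∃ v ∈ Subgroup.closure (FreeGroup.of '' (Y : Set (Fin n))),
            τ (FreeGroup.of i) = u * FreeGroup.of i * v) →
        ∃ h : (g * τ * g⁻¹) ^ N ∈ H, f ⟨_, h⟩ = 1 := by
  obtain ⟨N, hN, hmain⟩ := Helper38.AutF.main H hH f
  refine ⟨N, hN, fun Y i g τ hiY hY hY' hτ huv => ?_⟩
  refine (hmain Y ?_).1 g τ i hiY hτ huv
  rcases hY' with h | h
  · left; omega
  · right; exact ⟨h, hY⟩

end Pool.Agent.Results.MP_8358b8_al.TransvectionsDie
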